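import Pool.Agent.Lib_d8ed36.Final
import Mathlib.NumberTheory.Bernoulli
import Mathlib.Tactic

set_option autoImplicit false

namespace Pool.Agent.Results.MP_d8ed36_nt.SunQ2

/-- For every odd prime `p` and every positive integer `a`,
`T(p,a) = p^(-a) * ∑_{k < p^a} (11k+3)/64^k * C(2k,k)^2 * C(3k,k)` satisfies
`T(p,a) ≡ 3 + (7/2) p^3 B_{p-3} (mod p^4)`: the difference is `p^4 * r` with `r` a rational
number whose denominator is prime to `p`. -/
theorem result :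
    ∀ p : ℕ, p.Prime → p ≠ 2 → ∀ a : ℕ, 0 < a →
      ∃ r : ℚ,
        (1 / (p : ℚ) ^ a * ∑ k ∈ Finset.range (p ^ a),
            (11 * (k : ℚ) + 3) / (64 : ℚ) ^ k
              * (Nat.choose (2 * k) k : ℚ) ^ 2 * (Nat.choose (3 * k) k : ℚ))
          - (3 + 7 / 2 * (p : ℚ) ^ 3 * bernoulli (p - 3)) = (p : ℚ) ^ 4 * r
        ∧ Nat.Coprime r.den p := by
  intro p hp hp2 a ha
  obtain ⟨e, rfl⟩ : ∃ e, a = e + 1 := ⟨a - 1, by omega⟩
  have hodd : Odd (p ^ (e + 1)) := (hp.odd_of_ne_two hp2).pow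
  obtain ⟨M, hM⟩ := hodd
  have h := Lib_d8ed36.final_D p hp hp2 e M hM
  have hid := Lib_d8ed36.main_identity (2 * M)
  have hN : (2 * (M : ℚ) + 1) = (p : ℚ) ^ (e + 1) := by exact_mod_cast hM.symm
  obtain ⟨r, hr1, hr2⟩ := h.exists_den hp
  refine ⟨r, ?_, hr2⟩
  rw [← hr1, ← hid, hN, hM]
  congr 1
  rw [one_div, inv_mul_eq_div]
  congr 1
  refine Finset.sum_congr rfl (fun k _ => ?_)
  unfold Lib_d8ed36.uu
  ring

end Pool.Agent.Results.MP_d8ed36_nt.SunQ2
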