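import Pool.Agent.Lib_MP_d8ed36_q1.Final
import Pool.Agent.Lib_MP_d8ed36_q1.InertC
import Pool.Agent.Lib_MP_d8ed36_ins.Rep

/-!
# MP_d8ed36_nt Q1: `S(p)` modulo `p²`, with the unit root of the CM curve
-/

set_option autoImplicit false

namespace Pool.Agent.Results.MP_d8ed36_nt.UnitRoots

open Polynomial

/-- `S(p) = ∑_(k<p) C(2k,k)² C(3k,k) / 64^k`. -/
def S (p : ℕ) : ℚ :=
  ∑ k ∈ Finset.range p, ((2 * k).choose k : ℚ) ^ 2 * ((3 * k).choose k : ℚ) / 64 ^ k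

/-- `A_p(t) = ∑_(k<p) C(2k,k) C(3k,k) t^k` for a `p`-adic integer `t`. -/
noncomputable def A (p : ℕ) [Fact p.Prime] (t : ℤ_[p]) : ℤ_[p] :=
  ∑ k ∈ Finset.range p, ((2 * k).choose k : ℤ_[p]) * ((3 * k).choose k : ℤ_[p]) * t ^ k

private theorem A_eq (p : ℕ) [Fact p.Prime] (t : ℤ_[p]) : A p t = SunQ1.AA p t := by
  unfold A SunQ1.AA SunQ1.cc
  refine Finset.sum_congr rfl fun k _ => ?_
  push_cast
  ring

private theorem S_eq (p : ℕ) (hp : 0 < p) : S p = (SunQ1.Sint p : ℚ) / 64 ^ (p - 1) := by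
  unfold S
  rw [eq_div_iff (by positivity), Finset.sum_mul]
  unfold SunQ1.Sint
  push_cast
  refine Finset.sum_congr rfl fun k hk => ?_
  have hk' : k + (p - 1 - k) = p - 1 := by
    have := Finset.mem_range.mp hk
    omega
  have e : (64 : ℚ) ^ (p - 1) = 64 ^ (p - 1 - k) * 64 ^ k := by
    rw [← pow_add, add_comm (p - 1 - k) k, hk']
  rw [div_mul_eq_mul_div, div_eq_iff (by positivity), e]
  ring

private theorem norm_le {p : ℕ} [hp : Fact p.Prime] (h2 : p ≠ 2) (z : ℤ) (m : ℕ)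
    (h : (p : ℤ) ^ 2 ∣ z) : padicNorm p ((z : ℚ) / 64 ^ m) ≤ 1 / (p : ℚ) ^ 2 := by
  have h64 : padicNorm p ((64 : ℚ) ^ m) = 1 := by
    rw [← Nat.cast_ofNat, ← Nat.cast_pow, padicNorm.nat_eq_one_iff]
    intro h3
    have h4 : p ∣ 2 ^ 6 := by
      have h5 := hp.out.dvd_of_dvd_pow h3
      norm_num
      exact h5
    exact h2 ((Nat.prime_dvd_prime_iff_eq hp.out Nat.prime_two).1 (hp.out.dvd_of_dvd_pow h4))
  rw [padicNorm.div, h64, div_one]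
  have h1 := (padicNorm.dvd_iff_norm_le (p := p) (n := 2) (z := z)).1 (by exact_mod_cast h)
  have h2 : ((p : ℚ) ^ (-(2 : ℕ) : ℤ)) = 1 / (p : ℚ) ^ 2 := by
    rw [zpow_neg, zpow_natCast, one_div]
  rw [← h2]
  exact h1

private theorem jac {p : ℕ} (hp : p.Prime) (h11 : p ≠ 11) {x y : ℤ}
    (hxy : 4 * (p : ℤ) = x ^ 2 + 11 * y ^ 2) : jacobiSym (p : ℤ) 11 = 1 := by
  have hx : ¬ (11 : ℤ) ∣ x := by
    intro h
    have h1 : (11 : ℤ) ∣ 4 * (p : ℤ) := by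
      rw [hxy]
      exact dvd_add (Dvd.dvd.pow h (by norm_num)) (Dvd.intro _ rfl)
    have h2 : (11 : ℤ) ∣ (p : ℤ) := by
      apply Int.Prime.dvd_mul' (p := 11) (by norm_num) h1 |>.resolve_left
      norm_num
    have h3 : 11 ∣ p := by exact_mod_cast h2
    exact h11 ((Nat.prime_dvd_prime_iff_eq (by norm_num) hp).1 h3).symm
  have h4 : jacobiSym 4 11 = 1 := by norm_num
  have h5 : jacobiSym (4 * (p : ℤ)) 11 = jacobiSym (p : ℤ) 11 := by
    rw [jacobiSym.mul_left, h4, one_mul]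
  have h6 : jacobiSym (4 * (p : ℤ)) 11 = jacobiSym (x ^ 2) 11 := by
    apply jacobiSym.mod_left'
    rw [hxy]
    simp
  have h7 : jacobiSym (x ^ 2) 11 = 1 := by
    apply jacobiSym.sq_one'
    rw [Int.gcd_comm]
    exact (Int.isCoprime_iff_gcd_eq_one).1 (((Int.prime_iff_natAbs_prime).2 (by norm_num)).coprime_iff_not_dvd.2 hx)
  rw [← h5, h6, h7]

private theorem exists_rep {p : ℕ} [Fact p.Prime] (h2 : p ≠ 2) (h11 : p ≠ 11)
    (h : ∃ z : ℤ, (p : ℤ) ≡ z ^ 2 [ZMOD 11]) : ∃ x y : ℤ, 4 * (p : ℤ) = x ^ 2 + 11 * y ^ 2 := by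
  have hp : p.Prime := Fact.out
  rcases lt_or_ge p 5 with hlt | h5
  · have h3 : p = 3 := by
      have := hp.two_le
      have h4 : p ≠ 4 := by
        rintro rfl
        exact absurd hp (by norm_num)
      omega
    subst h3
    exact ⟨1, 1, by norm_num⟩
  · obtain ⟨z, hz⟩ := h
    have hz11 : ¬ (11 : ℤ) ∣ z := by
      intro h
      have h1 : (11 : ℤ) ∣ (p : ℤ) := by
        have h2 : (11 : ℤ) ∣ z ^ 2 := Dvd.dvd.pow h (by norm_num)
        exact hz.dvd_iff.2 h2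
      have h3 : 11 ∣ p := by exact_mod_cast h1
      exact h11 ((Nat.prime_dvd_prime_iff_eq (by norm_num) hp).1 h3).symm
    have hj : jacobiSym (p : ℤ) 11 = 1 := by
      have e : jacobiSym (p : ℤ) 11 = jacobiSym (z ^ 2) 11 := jacobiSym.mod_left' hz
      rw [e]
      apply jacobiSym.sq_one'
      rw [Int.gcd_comm]
      exact (Int.isCoprime_iff_gcd_eq_one).1
        (((Int.prime_iff_natAbs_prime).2 (by norm_num)).coprime_iff_not_dvd.2 hz11)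
    obtain ⟨s, hs⟩ := SunQ1.exists_sqrt h5 h11 hj
    refine Pool.Agent.D8ed36Ins.rep hp h2 (ZMod.cast (PadicInt.toZMod s) : ℤ) ?_
    rw [← ZMod.intCast_zmod_eq_zero_iff_dvd _ p]
    have h1 := congrArg (PadicInt.toZMod (p := p)) hs
    rw [map_pow, map_neg, map_ofNat] at h1
    push_cast
    rw [h1]
    ring

private theorem case3 (x y : ℤ) (h : 4 * ((3 : ℕ) : ℤ) = x ^ 2 + 11 * y ^ 2) : x ^ 2 = 1 := by
  push_cast at h
  have hy : y ^ 2 ≤ 1 := by nlinarith [sq_nonneg x]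
  have hy0 : 0 ≤ y ^ 2 := sq_nonneg y
  have h01 : y ^ 2 = 0 ∨ y ^ 2 = 1 := by omega
  rcases h01 with h0 | h1
  · exfalso
    have hx : x ^ 2 = 12 := by linarith
    have hx1 : x ≤ 3 := by nlinarith
    have hx2 : -3 ≤ x := by nlinarith
    interval_cases x <;> omega
  · linarith

private theorem refined {p : ℕ} [Fact p.Prime] (h5 : 5 ≤ p) (h11 : p ≠ 11) {s t : ℤ_[p]}
    (hs : s ^ 2 = -11) (ht : 216 * t = 4 + s) {x y : ℤ}
    (hxy : 4 * (p : ℤ) = x ^ 2 + 11 * y ^ 2) :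
    ∃ ω : ℤ_[p], IsUnit ω ∧ (ω ^ 2 + p) ^ 2 = (x : ℤ_[p]) ^ 2 * ω ^ 2 ∧
      (p : ℤ_[p]) ^ 2 ∣ A p t - ω := by
  have hp : p.Prime := Fact.out
  have hp0 : (p : ℤ_[p]) ≠ 0 := by exact_mod_cast hp.ne_zero
  obtain ⟨m, n, π, π', hmn, hπ, hππ, hu, hlast⟩ := SunQ1.exists_pi h5 h11 hs hxy
  obtain ⟨u, v, h1, h2, h3, h4, h6⟩ := SunQ1.redx_map h5 h11 hs hmn hπ hππ hu
  have ea : SunQ1.ca (s : ℚ_[p]) = ((SunQ1.ca s : ℤ_[p]) : ℚ_[p]) := by
    unfold SunQ1.ca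
    push_cast
    rfl
  have eb : SunQ1.cb (s : ℚ_[p]) = ((SunQ1.cb s : ℤ_[p]) : ℚ_[p]) := by
    unfold SunQ1.cb
    push_cast
    rfl
  rw [ea, eb] at h1
  obtain ⟨N, D, V, hN, hD, hNr, hDr, E1, E2⟩ := SunQ1.redx_poly h5 hππ hu h1 h2 h3 h4 h6
  obtain ⟨t', ht', htu, N1, D1, V1, hN1, hD1, hNr1, hDr1, F1, F2⟩ :=
    SunQ1.shift h5 hs hN hD hNr hDr E1 E2
  have h216 : (216 : ℤ_[p]) ≠ 0 := by norm_num
  have htt : t = t' := mul_left_cancel₀ h216 (ht.trans ht'.symm)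
  subst htt
  -- the unit root
  have hπ0 : π ≠ 0 := by
    intro h
    rw [h, zero_mul] at hππ
    exact hp0 hππ.symm
  have h20 : (2 : ℤ_[p]) ≠ 0 := by norm_num
  set X : ℤ := 2 * m + n with hX
  have hmn' : (m : ℤ_[p]) ^ 2 + m * n + 3 * n ^ 2 = (p : ℤ_[p]) := by exact_mod_cast hmn
  have hXc : (X : ℤ_[p]) = 2 * m + n := by
    rw [hX]
    push_cast
    ring
  have hsum : π + π' = (X : ℤ_[p]) := by
    have e1 : (2 * π) * (2 * π') = (2 * π) * (2 * (m : ℤ_[p]) + n * (1 + s)) := by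
      have e2 : (2 * π) * (2 * π') = 4 * (p : ℤ_[p]) := by linear_combination 4 * hππ
      rw [e2, hπ]
      linear_combination -4 * hmn' + (n : ℤ_[p]) ^ 2 * hs
    have e3 : 2 * π' = 2 * (m : ℤ_[p]) + n * (1 + s) := mul_left_cancel₀ (mul_ne_zero h20 hπ0) e1
    apply mul_left_cancel₀ h20
    rw [hXc]
    linear_combination hπ + e3
  have hX2 : X ^ 2 + 11 * n ^ 2 = 4 * (p : ℤ) := by
    rw [← hmn, hX]
    ring
  have hXx : X ^ 2 = x ^ 2 := by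
    have hdvd : (p : ℤ_[p]) ^ 2 ∣ (((X ^ 2 - x ^ 2 : ℤ)) : ℤ_[p]) := by
      obtain ⟨c, hc⟩ := hlast
      obtain ⟨w, hw⟩ := hu
      have e1 : π = (p : ℤ_[p]) * (w⁻¹ : ℤ_[p]ˣ) := by
        rw [← hππ, ← hw, mul_assoc, Units.mul_inv, mul_one]
      refine ⟨c + ((w⁻¹ : ℤ_[p]ˣ) : ℤ_[p]) ^ 2, ?_⟩
      push_cast
      have e2 : (X : ℤ_[p]) ^ 2 = π ^ 2 + π' ^ 2 + 2 * (p : ℤ_[p]) := by
        rw [← hsum, ← hππ]
        ring
      rw [e2]
      have e3 : π ^ 2 = (p : ℤ_[p]) ^ 2 * ((w⁻¹ : ℤ_[p]ˣ) : ℤ_[p]) ^ 2 := by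
        rw [e1]
        ring
      rw [e3]
      linear_combination hc
    have hdvd' : (p : ℤ) ^ 2 ∣ X ^ 2 - x ^ 2 := (PadicInt.pow_p_dvd_int_iff 2 _).mp hdvd
    have hlt : |X ^ 2 - x ^ 2| < (p : ℤ) ^ 2 := by
      have hp5 : (5 : ℤ) ≤ p := by exact_mod_cast h5
      rw [abs_lt]
      constructor
      · nlinarith [sq_nonneg X, sq_nonneg n, sq_nonneg y]
      · nlinarith [sq_nonneg x, sq_nonneg n, sq_nonneg y]
    have := Int.eq_zero_of_abs_lt_dvd hdvd' hlt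
    linarith
  have hroot : (π' ^ 2 + p) ^ 2 = (x : ℤ_[p]) ^ 2 * π' ^ 2 := by
    have e1 : (x : ℤ_[p]) ^ 2 = (X : ℤ_[p]) ^ 2 := by exact_mod_cast hXx.symm
    rw [e1, ← hsum, ← hππ]
    ring
  rcases SunQ1.core h5 htu hu hππ hN1 hD1 hNr1 hDr1 F1 F2 with h | h
  · refine ⟨π', hu, hroot, ?_⟩
    rw [A_eq, ← neg_sub]
    exact (dvd_neg).2 h
  · refine ⟨-π', hu.neg, ?_, ?_⟩
    · rw [neg_sq]
      exact hroot
    · rw [A_eq, sub_neg_eq_add, add_comm]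
      exact h

/-- **Q1 with the unit root.** Let `p` be an odd prime different from `11`. If `p` is a square modulo `11`
then there are integers `x`, `y` with `4p = x² + 11y²`. If `4p = x² + 11y²` then
`S(p) ≡ x² - 2p (mod p²)`, and for `p ≥ 5` and each of the two `p`-adic numbers
`t = (4 + √-11)/216` there is a `p`-adic unit `ω` with `(ω² + p)² = x² ω²` (a unit root of
`T² ± xT + p`) and `∑_(k<p) C(2k,k) C(3k,k) t^k ≡ ω (mod p²)`. If `(p/11) = -1` then `S(p) ≡ 0 (mod p²)`. -/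
theorem result (p : ℕ) [Fact p.Prime] (h2 : p ≠ 2) (h11 : p ≠ 11) :
    ((∃ z : ℤ, (p : ℤ) ≡ z ^ 2 [ZMOD 11]) → ∃ x y : ℤ, 4 * (p : ℤ) = x ^ 2 + 11 * y ^ 2) ∧
    (∀ x y : ℤ, 4 * (p : ℤ) = x ^ 2 + 11 * y ^ 2 →
      padicNorm p (S p - ((x : ℚ) ^ 2 - 2 * p)) ≤ 1 / (p : ℚ) ^ 2 ∧
      (5 ≤ p → ∀ s t : ℤ_[p], s ^ 2 = -11 → 216 * t = 4 + s →
        ∃ ω : ℤ_[p], IsUnit ω ∧ (ω ^ 2 + p) ^ 2 = (x : ℤ_[p]) ^ 2 * ω ^ 2 ∧
          (p : ℤ_[p]) ^ 2 ∣ A p t - ω)) ∧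
    ((∀ z : ℤ, ¬ (p : ℤ) ≡ z ^ 2 [ZMOD 11]) → padicNorm p (S p) ≤ 1 / (p : ℚ) ^ 2) := by
  refine ⟨exists_rep h2 h11, ?_⟩
  have hp : p.Prime := Fact.out
  have h64 : (64 : ℚ) ^ (p - 1) ≠ 0 := by positivity
  rcases lt_or_ge p 5 with hlt | h5
  · have h3 : p = 3 := by
      have := hp.two_le
      have h4 : p ≠ 4 := by
        rintro rfl
        exact absurd hp (by norm_num)
      omega
    subst h3
    refine ⟨fun x y hxy => ⟨?_, fun h => absurd h (by norm_num)⟩, fun hz => ?_⟩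
    · have hx : (x : ℚ) ^ 2 = 1 := by exact_mod_cast case3 x y hxy
      have e : S 3 - ((x : ℚ) ^ 2 - 2 * ((3 : ℕ) : ℚ)) = ((25884 : ℤ) : ℚ) / 64 ^ 2 := by
        rw [hx]
        unfold S
        simp only [Finset.sum_range_succ, Finset.sum_range_zero]
        norm_num [Nat.choose]
      rw [e]
      exact norm_le h2 _ _ (by norm_num)
    · exfalso
      exact hz 5 (by decide)
  · refine ⟨fun x y hxy => ⟨?_, fun _ s t hs ht => refined h5 h11 hs ht hxy⟩, fun hz => ?_⟩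
    · have h := SunQ1.split_dvd h5 h11 (jac hp h11 hxy) hxy
      have e : S p - ((x : ℚ) ^ 2 - 2 * p) =
          (((SunQ1.Sint p : ℤ) - 64 ^ (p - 1) * (x ^ 2 - 2 * (p : ℤ)) : ℤ) : ℚ) / 64 ^ (p - 1) := by
        rw [S_eq p hp.pos]
        push_cast
        field_simp
      rw [e]
      exact norm_le h2 _ _ h
    · have hj : jacobiSym (p : ℤ) 11 = -1 := by
        have : Fact (Nat.Prime 11) := ⟨by norm_num⟩
        rw [← jacobiSym.legendreSym.to_jacobiSym, legendreSym.eq_neg_one_iff]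
        rintro ⟨r, hr⟩
        apply hz (r.val : ℤ)
        refine (ZMod.intCast_eq_intCast_iff _ _ 11).1 ?_
        push_cast
        rw [ZMod.natCast_val, ZMod.cast_id', id, pow_two]
        push_cast at hr
        exact hr
      have h := SunQ1.inert_dvd h5 (SunQ1.no_sqrt h5 hj)
      have e : S p = (((SunQ1.Sint p : ℤ)) : ℚ) / 64 ^ (p - 1) := by
        rw [S_eq p hp.pos]
        push_cast
        rfl
      rw [e]
      exact norm_le h2 _ _ h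

end Pool.Agent.Results.MP_d8ed36_nt.UnitRoots
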